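import Mathlib

set_option autoImplicit false

namespace Pool.Agent.Results.MP_0e3340_nt.InfiniteFamily

/-- A triple of integers is multiplicatively dependent if its entries are nonzero and some
nontrivial product of integer powers of them equals one. -/
def MultDependent (x y z : ℤ) : Prop :=
  x ≠ 0 ∧ y ≠ 0 ∧ z ≠ 0 ∧
    ∃ k₁ k₂ k₃ : ℤ, ¬ (k₁ = 0 ∧ k₂ = 0 ∧ k₃ = 0) ∧
      (x : ℚ) ^ k₁ * (y : ℚ) ^ k₂ * (z : ℚ) ^ k₃ = 1

/-- Admissible triples, as in the problem. -/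
def Admissible (a b c : ℤ) : Prop :=
  a ≠ b ∧ a ≠ c ∧ b ≠ c ∧ 1 < a ∧ 1 < b ∧ 1 < c ∧
    ¬ (({2, 8} : Set ℤ) ⊆ {a, b, c}) ∧
    MultDependent a b c ∧
    MultDependent (a + 1) (b + 1) (c + 1) ∧
    MultDependent (a + 2) (b + 2) (c + 2)

theorem family_admissible (n : ℕ) :
    Admissible 2 (2 ^ (n + 3) - 2) (2 ^ (n + 3) * (2 ^ (n + 3) - 2)) := by
  have h8 : (8 : ℤ) ≤ 2 ^ (n + 3) := by
    have : (1 : ℤ) ≤ 2 ^ n := one_le_pow₀ (by norm_num)
    calc (8 : ℤ) = 1 * 8 := by norm_num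
      _ ≤ 2 ^ n * 8 := by linarith
      _ = 2 ^ (n + 3) := by ring
  have hdvd : (4 : ℤ) ∣ 2 ^ (n + 3) := ⟨2 ^ (n + 1), by ring⟩
  set x : ℤ := 2 ^ (n + 3) with hx
  have hxx : (x - 2) * 8 ≤ x * (x - 2) := by nlinarith
  refine ⟨by omega, ?_, ?_, by norm_num, by omega, ?_, ?_, ?_, ?_, ?_⟩
  · intro h; nlinarith
  · intro h; nlinarith
  · nlinarith
  · intro hsub
    have h8mem : (8 : ℤ) ∈ ({2, x - 2, x * (x - 2)} : Set ℤ) :=
      hsub (by simp)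
    simp only [Set.mem_insert_iff, Set.mem_singleton_iff] at h8mem
    rcases h8mem with h | h | h
    · norm_num at h
    · omega
    · nlinarith
  · refine ⟨by norm_num, by omega, ?_, (n : ℤ) + 3, 1, -1, ?_, ?_⟩
    · intro h; nlinarith
    · rintro ⟨-, h, -⟩; norm_num at h
    · have hpow : ((2 : ℤ) : ℚ) ^ ((n : ℤ) + 3) = (x : ℚ) := by
        have : ((n : ℤ) + 3) = ((n + 3 : ℕ) : ℤ) := by push_cast; ring
        rw [this, zpow_natCast, hx]; push_cast; ring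
      have hx0 : (x : ℚ) ≠ 0 := by
        have : x ≠ 0 := by omega
        exact_mod_cast this
      have hx2 : ((x - 2 : ℤ) : ℚ) ≠ 0 := by
        have : x - 2 ≠ 0 := by omega
        exact_mod_cast this
      rw [hpow, zpow_one, zpow_neg_one]
      push_cast at hx2 ⊢
      field_simp
  · refine ⟨by norm_num, by omega, ?_, 0, 2, -1, ?_, ?_⟩
    · intro h; nlinarith
    · rintro ⟨-, h, -⟩; norm_num at h
    · have hx1 : ((x - 1 : ℤ) : ℚ) ≠ 0 := by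
        have : x - 1 ≠ 0 := by omega
        exact_mod_cast this
      have e1 : ((x - 2 + 1 : ℤ) : ℚ) = ((x - 1 : ℤ) : ℚ) := by push_cast; ring
      have e2 : ((x * (x - 2) + 1 : ℤ) : ℚ) = ((x - 1 : ℤ) : ℚ) ^ 2 := by push_cast; ring
      rw [e1, e2, zpow_zero, zpow_neg_one, one_mul]
      have : ((x - 1 : ℤ) : ℚ) ^ (2 : ℤ) = ((x - 1 : ℤ) : ℚ) ^ 2 := by norm_cast
      rw [this]
      field_simp
  · refine ⟨by norm_num, by omega, ?_, (n : ℤ) + 3, -2, 0, ?_, ?_⟩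
    · intro h; nlinarith
    · rintro ⟨-, h, -⟩; norm_num at h
    · have e1 : ((x - 2 + 2 : ℤ) : ℚ) = (2 : ℚ) ^ (n + 3) := by
        rw [hx]; push_cast; ring
      have e2 : (((2 : ℤ) + 2 : ℤ) : ℚ) = (2 : ℚ) ^ 2 := by norm_num
      have e3 : ((n : ℤ) + 3) = ((n + 3 : ℕ) : ℤ) := by push_cast; ring
      rw [e1, e2, e3, zpow_natCast, zpow_zero, mul_one, zpow_neg]
      have e4 : ((2 : ℚ) ^ (n + 3)) ^ (2 : ℤ) = ((2 : ℚ) ^ (n + 3)) ^ 2 := by norm_cast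
      rw [e4, ← pow_mul, ← pow_mul, mul_comm 2 (n + 3)]
      exact mul_inv_cancel₀ (by positivity)

/-- Every triple `(2, 2^k - 2, 2^k (2^k - 2))` with `k ≥ 3` is admissible and has increasing
entries; in particular there are infinitely many admissible triples `a < b < c`. -/
theorem result :
    (∀ k : ℕ, 3 ≤ k →
      Admissible 2 (2 ^ k - 2) (2 ^ k * (2 ^ k - 2)) ∧
        (2 : ℤ) < 2 ^ k - 2 ∧ (2 : ℤ) ^ k - 2 < 2 ^ k * (2 ^ k - 2)) ∧
    {t : ℤ × ℤ × ℤ | Admissible t.1 t.2.1 t.2.2 ∧ t.1 < t.2.1 ∧ t.2.1 < t.2.2}.Infinite := by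
  have hfam : ∀ k : ℕ, 3 ≤ k →
      Admissible 2 (2 ^ k - 2) (2 ^ k * (2 ^ k - 2)) ∧
        (2 : ℤ) < 2 ^ k - 2 ∧ (2 : ℤ) ^ k - 2 < 2 ^ k * (2 ^ k - 2) := by
    intro k hk
    obtain ⟨n, rfl⟩ := Nat.exists_eq_add_of_le' hk
    have h8 : (8 : ℤ) ≤ 2 ^ (n + 3) := by
      have : (1 : ℤ) ≤ 2 ^ n := one_le_pow₀ (by norm_num)
      calc (8 : ℤ) = 1 * 8 := by norm_num
        _ ≤ 2 ^ n * 8 := by linarith
        _ = 2 ^ (n + 3) := by ring
    exact ⟨family_admissible n, by linarith, by nlinarith⟩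
  refine ⟨hfam, ?_⟩
  let f : ℕ → ℤ × ℤ × ℤ := fun n =>
    (2, 2 ^ (n + 3) - 2, 2 ^ (n + 3) * (2 ^ (n + 3) - 2))
  have hinj : Function.Injective f := by
    intro m n h
    have h1 : (2 : ℤ) ^ (m + 3) - 2 = 2 ^ (n + 3) - 2 := by
      have := congrArg (fun t : ℤ × ℤ × ℤ => t.2.1) h
      exact this
    have h2 : (2 : ℤ) ^ (m + 3) = 2 ^ (n + 3) := by linarith
    have h3 : m + 3 = n + 3 := pow_right_injective₀ (by norm_num) (by norm_num) h2
    omega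
  refine Set.infinite_of_injective_forall_mem hinj ?_
  intro n
  exact hfam (n + 3) (by omega)

end Pool.Agent.Results.MP_0e3340_nt.InfiniteFamily
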